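import Mathlib
import Pool.Agent.R500.WB.Main
import Pool.Agent.R500.WB.Local

set_option autoImplicit false

/-!
# `4 k` randomly moved `k`-th powers

If the `k`-th powers are moved at random by multiples of a fixed `q`, which keeps all the
conditions modulo `q`, where the multipliers are at most the `η`-th power of their size,
`1 / 32 ≤ η < 1`, then almost surely every large integer is a sum of exactly `4 k` of them.
-/

namespace Pool.Agent.Results.MP_ee77ae_nt.MovedPowers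

open Finset MeasureTheory ProbabilityTheory Filter

/-- `a` is a sequence of `k`-th powers moved at random by multiples of `q`: the `a x` are
independent random natural numbers, `a x = x ^ k + q j` with an integer `0 ≤ j ≤ (x ^ k) ^ η`, and
each such `j` is taken with at least the probability `δ / ((x ^ k) ^ η + 1)`. With the remaining
probability (up to `1 - δ`) the power need not be moved at all. -/
structure Moved (k q : ℕ) (η δ : ℝ) {Ω : Type} [MeasurableSpace Ω] (μ : Measure Ω)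
    (a : ℕ → Ω → ℕ) : Prop where
  measurable : ∀ x, Measurable (a x)
  indep : iIndepFun a μ
  range : ∀ (x : ℕ) (ω : Ω), ∃ j : ℕ, (j : ℝ) ≤ ((x : ℝ) ^ k) ^ η ∧ a x ω = x ^ k + q * j
  spread : ∀ x j : ℕ, (j : ℝ) ≤ ((x : ℝ) ^ k) ^ η →
    δ / (((x : ℝ) ^ k) ^ η + 1) ≤ μ.real {ω | a x ω = x ^ k + q * j}

/-- **Sums of `4 k` moved powers.** -/
theorem result (k : ℕ) (hk : 2 ≤ k) (q : ℕ) (hq : 1 ≤ q) (η δ : ℝ) (hη : 1 / 32 ≤ η)
    (hη1 : η < 1) (hδ0 : 0 < δ) (hδ1 : δ ≤ 1) :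
    -- almost surely all large integers are sums of `4 * k` moved powers
    (∀ (Ω : Type) [MeasurableSpace Ω] (μ : Measure Ω) [IsProbabilityMeasure μ] (a : ℕ → Ω → ℕ),
      Moved k q η δ μ a → ∀ᵐ ω ∂μ, ∀ᶠ n : ℕ in atTop,
        ∃ x : Fin (4 * k) → ℕ, (∀ i, 0 < x i) ∧ ∑ i, a (x i) ω = n) ∧
    -- such random sequences exist, with each power unmoved with probability at least `1 - δ`
    (∃ (Ω : Type) (_ : MeasurableSpace Ω) (μ : Measure Ω) (_ : IsProbabilityMeasure μ)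
      (a : ℕ → Ω → ℕ), Moved k q η δ μ a ∧ ∀ x, 1 - δ ≤ μ.real {ω | a x ω = x ^ k}) ∧
    -- the deterministic corollary
    (∃ b : ℕ → ℕ, (∀ x : ℕ, ∃ j : ℕ, (j : ℝ) ≤ ((x : ℝ) ^ k) ^ η ∧ b x = x ^ k + q * j) ∧
      (∀ᶠ N : ℕ in atTop,
        (1 - δ) * N ≤ (((Finset.range N).filter fun x => b x = x ^ k).card : ℝ)) ∧
      ∀ᶠ n : ℕ in atTop, ∃ x : Fin (4 * k) → ℕ, (∀ i, 0 < x i) ∧ ∑ i, b (x i) = n) := by
  have hη0 : 0 < η := by linarith
  have hk1 : 1 ≤ k := by omega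
  have ht : (η + Real.log (1 / η)) * k + 1 < ((4 * k : ℕ) : ℝ) := by
    have h1 := R500.WA.mono_aux (η₀ := 1 / 32) (by norm_num) hη hη1.le
    have h2 := R500.WA.thirtytwo_aux
    have h3 : (2 : ℝ) ≤ k := by exact_mod_cast hk
    have h4 : (η + Real.log (1 / η)) * k < 7 / 2 * k := by
      refine mul_lt_mul_of_pos_right ?_ (by linarith)
      linarith
    push_cast
    linarith
  have hloc : R500.WB.Loc k (4 * k) q := R500.WB.Loc.four hk1 hq
  refine ⟨?_, ?_, ?_⟩
  · intro Ω _ μ _ a ha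
    filter_upwards [R500.WB.coreQ hq hk1 hη0 hη1 ht hδ0 hδ1 ha.measurable ha.indep ha.range
      ha.spread] with ω hω
    filter_upwards [hω] with n hn
    exact hn (hloc n)
  · obtain ⟨Ω, mΩ, μ, hμ, a, h1, h2, h3, h4, h5, -⟩ :=
      R500.WB.exists_movedQ q k (η := η) hq hδ0 hδ1
    exact ⟨Ω, mΩ, μ, hμ, a, ⟨h1, h2, h3, h4⟩, h5⟩
  · obtain ⟨b, h1, h2, h3⟩ := R500.WB.detQ hq hk1 hη0 hη1 ht hδ0 hδ1
    refine ⟨b, h1, ?_, ?_⟩
    · filter_upwards [h2] with n hn
      convert hn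
    · filter_upwards [h3] with n hn
      exact hn (hloc n)

end Pool.Agent.Results.MP_ee77ae_nt.MovedPowers
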