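import Mathlib
import Pool.Agent.R500.WC.Def
import Pool.Agent.R500.WA.Lower

set_option autoImplicit false

/-!
# A sparse set of the `k`-th powers is moved

Only the powers `x ^ k` with `x` in a set `M` are moved (at random, by multiples of `q`), where `M`
may be sparse: about `X ^ κ` of the first `X` integers. However small `κ` is, and however small the
moves are, the analogue of `G(k)` has almost surely the order of magnitude `k`.
-/

namespace Pool.Agent.Results.MP_45c923_nt.SparseMoves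

open Finset MeasureTheory ProbabilityTheory Filter
open Pool.Agent.R500.WC (Thick MovedOn MS)
open scoped Classical

/-- `m` is the least number of terms which suffices for all large integers: the analogue of
`G(k)` with `b x` in place of `x ^ k`. -/
def IsG (b : ℕ → ℕ) (m : ℕ) : Prop :=
  IsLeast {m : ℕ | ∀ᶠ n : ℕ in atTop, ∃ x : Fin m → ℕ, ∑ i, b (x i) = n} m

/-- From more than `c k + 2` terms on the conditions modulo `q` are the only obstructions, and the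
analogue of `G(k)` lies between `k + 1` and the maximum of `4 k` and `c k + 3`. -/
def Order (k q : ℕ) (c : ℝ) (b : ℕ → ℕ) : Prop :=
  (∀ t : ℕ, c * k + 2 < t → ∀ᶠ n : ℕ in atTop, (∃ ρ : Fin t → ℕ, ∑ i, ρ i ^ k ≡ n [MOD q]) →
    ∃ x : Fin t → ℕ, (∀ i, 0 < x i) ∧ ∑ i, b (x i) = n) ∧
  ∃ m : ℕ, IsG b m ∧ k + 1 ≤ m ∧ (m : ℝ) ≤ max (4 * (k : ℝ)) (c * k + 3)

/-- The deterministic lower bound. -/
lemma le_of_mem {k : ℕ} (hk : 2 ≤ k) {b : ℕ → ℕ} (hb : ∀ x, x ^ k ≤ b x) (hb0 : b 0 = 0) {m : ℕ}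
    (hm : ∀ᶠ n : ℕ in atTop, ∃ x : Fin m → ℕ, ∑ i, b (x i) = n) : k + 1 ≤ m := by
  by_contra hcon
  obtain ⟨N₀, hN₀⟩ := eventually_atTop.1 hm
  obtain ⟨n, hn, hn'⟩ := R500.WA.lower hk b hb N₀
  apply hn'
  obtain ⟨x, hx⟩ := hN₀ n hn
  -- keep the positive terms
  refine ⟨((univ : Finset (Fin m)).filter fun i => 0 < x i).card, ?_,
    fun i => x (((univ : Finset (Fin m)).filter fun i => 0 < x i).orderEmbOfFin rfl i), ?_, ?_⟩
  · have h1 := Finset.card_filter_le (univ : Finset (Fin m)) (fun i => 0 < x i)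
    rw [Finset.card_univ, Fintype.card_fin] at h1
    omega
  · intro i
    exact (Finset.mem_filter.1 (Finset.orderEmbOfFin_mem _ rfl i)).2
  · rw [← hx]
    have h1 : ∑ i, b (x i) = ∑ i ∈ (univ : Finset (Fin m)).filter (fun i => 0 < x i), b (x i) := by
      rw [Finset.sum_filter]
      refine Finset.sum_congr rfl fun i _ => ?_
      split_ifs with h
      · rfl
      · have : x i = 0 := by omega
        rw [this, hb0]
    rw [h1]
    have h2 := Finset.map_orderEmbOfFin_univ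
      ((univ : Finset (Fin m)).filter fun i => 0 < x i) rfl
    conv_rhs => rw [← h2]
    rw [Finset.sum_map]
    rfl

lemma order_of {k q : ℕ} {η c : ℝ} (hk : 2 ≤ k) (hq : 1 ≤ q) (hη0 : 0 < η) (hc0 : 0 < c)
    {b : ℕ → ℕ}
    (hb : ∀ x : ℕ, ∃ j : ℕ, (j : ℝ) ≤ ((x : ℝ) ^ k) ^ η ∧ b x = x ^ k + q * j)
    (h : ∀ t : ℕ, c * k + 2 < t → ∀ᶠ n : ℕ in atTop,
      (∃ ρ : Fin t → ℕ, ∑ i, ρ i ^ k ≡ n [MOD q]) →
        ∃ x : Fin t → ℕ, (∀ i, 0 < x i) ∧ ∑ i, b (x i) = n) : Order k q c b := by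
  have hk1 : 1 ≤ k := by omega
  have hk0 : (0 : ℝ) < k := by exact_mod_cast (show 0 < k by omega)
  have hck : 0 < c * k := by positivity
  obtain ⟨t, ht⟩ : ∃ t : ℕ, t = max (4 * k) (⌊c * k⌋₊ + 3) := ⟨_, rfl⟩
  have ht1 : c * k + 2 < t := by
    have h1 := Nat.lt_floor_add_one (c * k)
    have h2 : ((⌊c * k⌋₊ + 3 : ℕ) : ℝ) ≤ t := by
      rw [ht]; exact_mod_cast le_max_right _ _
    push_cast at h2
    linarith
  have ht2 : (t : ℝ) ≤ max (4 * (k : ℝ)) (c * k + 3) := by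
    rw [ht]
    push_cast
    refine max_le_max le_rfl ?_
    have := Nat.floor_le hck.le
    linarith
  have hb0 : b 0 = 0 := by
    obtain ⟨j, h1, h2⟩ := hb 0
    have h3 : ((0 : ℕ) : ℝ) ^ k = 0 := by
      rw [Nat.cast_zero, zero_pow (by omega)]
    rw [h3, Real.zero_rpow hη0.ne'] at h1
    have h4 : j = 0 := by exact_mod_cast le_antisymm h1 (Nat.cast_nonneg _)
    rw [h2, h4, zero_pow (by omega), mul_zero, add_zero]
  have hbk : ∀ x, x ^ k ≤ b x := by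
    intro x
    obtain ⟨j, -, h2⟩ := hb x
    rw [h2]
    exact Nat.le_add_right _ _
  have hloc : R500.WB.Loc k t q :=
    (R500.WB.Loc.four hk1 hq).mono hk1 (by rw [ht]; exact le_max_left _ _)
  have hne : t ∈ {m : ℕ | ∀ᶠ n : ℕ in atTop, ∃ x : Fin m → ℕ, ∑ i, b (x i) = n} := by
    rw [Set.mem_ofPred_eq]
    filter_upwards [h t ht1] with n hn
    obtain ⟨x, -, hx⟩ := hn (hloc n)
    exact ⟨x, hx⟩
  refine ⟨h, sInf _, ⟨Nat.sInf_mem ⟨t, hne⟩, fun m hm => Nat.sInf_le hm⟩, ?_, ?_⟩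
  · exact le_of_mem hk hbk hb0 (Nat.sInf_mem ⟨t, hne⟩)
  · refine le_trans ?_ ht2
    exact_mod_cast Nat.sInf_le hne

/-- **The order of magnitude, with a sparse set of the powers moved.** -/
theorem result (η δ : ℝ) (hη0 : 0 < η) (hη1 : η < 1) (hδ0 : 0 < δ) (hδ1 : δ ≤ 1) (k : ℕ)
    (hk : 2 ≤ k) (q : ℕ) (hq : 1 ≤ q) :
    -- almost surely the analogue of `G(k)` has the order of magnitude `k`
    (∀ (κ : ℝ) (M : Set ℕ), 0 < κ → Thick q κ M → ∀ (Ω : Type) [MeasurableSpace Ω]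
      (μ : Measure Ω) [IsProbabilityMeasure μ] (a : ℕ → Ω → ℕ), MovedOn k q η δ M μ a →
        ∀ᵐ ω ∂μ, Order k q (η / κ + Real.log (1 / η)) (fun x => a x ω)) ∧
    -- such random sequences exist for every `M`, and `M` can be sparse
    (∀ M : Set ℕ, ∃ (Ω : Type) (_ : MeasurableSpace Ω) (μ : Measure Ω)
      (_ : IsProbabilityMeasure μ) (a : ℕ → Ω → ℕ), MovedOn k q η δ M μ a) ∧
    (∀ s : ℕ, 1 ≤ s → ∀ κ : ℝ, κ < 1 / s → Thick q κ (MS q s)) ∧
    -- the deterministic corollary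
    (∀ s : ℕ, 1 ≤ s → ∃ b : ℕ → ℕ,
      (∀ x : ℕ, ∃ j : ℕ, (j : ℝ) ≤ ((x : ℝ) ^ k) ^ η ∧ b x = x ^ k + q * j) ∧
      (∀ X : ℕ, 1 ≤ X → (((Finset.range X).filter fun x => b x ≠ x ^ k).card : ℝ) ≤
        2 * q * (X : ℝ) ^ (1 / (s : ℝ))) ∧
      Order k q (η * s + Real.log (1 / η)) b) := by
  have hk1 : 1 ≤ k := by omega
  have hlog0 : 0 < Real.log (1 / η) := Real.log_pos (by rw [lt_div_iff₀ hη0]; linarith)
  refine ⟨?_, fun M => R500.WC.exists_movedOn k η hq hδ1 M,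
    fun s hs κ hκ => R500.WC.MS_thick hq hs hκ, ?_⟩
  · intro κ M hκ0 hTh Ω _ μ _ a ha
    filter_upwards [ha.ae_all hq hk1 hη0 hη1 hκ0 hTh hδ0 hδ1] with ω hω
    exact order_of hk hq hη0 (by positivity) (fun x => ha.range x ω) hω
  · intro s hs
    have hs0 : (0 : ℝ) < s := by exact_mod_cast hs
    obtain ⟨b, h1, h2, h3⟩ := R500.WC.detOn (k := k) (q := q) hq hk1 hη0 hη1 hs
    refine ⟨b, h1, fun X hX => ?_, order_of hk hq hη0 (by positivity) h1 h3⟩
    convert h2 X hX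

end Pool.Agent.Results.MP_45c923_nt.SparseMoves
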